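import Pool.Agent.Helper23.KU.ZDefs

/-!
# KR: second order, the mean over four phases of a Frostman shift
-/

set_option autoImplicit false

namespace Pool.Agent.Helper82.KU

open Complex Metric Set MeasureTheory Filter Topology
open Pool.Agent.Helper23.KB (sq)

/-- the square of the modulus of a Frostman shift -/
theorem shift_sq (a u y τ : ℂ) (h : 1 - (starRingEnd ℂ) τ * y ≠ 0) :
    ‖(a - τ * u) / (1 - (starRingEnd ℂ) τ * y)‖ ^ 2 =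
      ‖a‖ ^ 2 + 2 * ((starRingEnd ℂ) a * (a * (starRingEnd ℂ) y - u) *
        (τ / (1 - τ * (starRingEnd ℂ) y))).re +
      ‖τ‖ ^ 2 * ‖a * (starRingEnd ℂ) y - u‖ ^ 2 / ‖1 - (starRingEnd ℂ) τ * y‖ ^ 2 := by
  have h2 : (starRingEnd ℂ) (1 - (starRingEnd ℂ) τ * y) = 1 - τ * (starRingEnd ℂ) y := by
    simp
  have h3 : 1 - τ * (starRingEnd ℂ) y ≠ 0 := by
    rw [← h2]
    exact (map_ne_zero _).2 h
  have h4 : ‖1 - (starRingEnd ℂ) τ * y‖ = ‖1 - τ * (starRingEnd ℂ) y‖ := by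
    rw [← h2, RCLike.norm_conj]
  have h5 : ‖(a - τ * u) / (1 - (starRingEnd ℂ) τ * y)‖ =
      ‖a + (a * (starRingEnd ℂ) y - u) * (τ / (1 - τ * (starRingEnd ℂ) y))‖ := by
    rw [norm_div, h4, ← norm_div]
    congr 1
    field_simp
    ring
  rw [h5, h4, ← Complex.normSq_eq_norm_sq, Complex.normSq_add, Complex.normSq_eq_norm_sq,
    Complex.normSq_eq_norm_sq, norm_mul, norm_div]
  have h6 : (a * (starRingEnd ℂ) ((a * (starRingEnd ℂ) y - u) *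
      (τ / (1 - τ * (starRingEnd ℂ) y)))).re =
      ((starRingEnd ℂ) a * (a * (starRingEnd ℂ) y - u) *
        (τ / (1 - τ * (starRingEnd ℂ) y))).re := by
    rw [← Complex.conj_re, map_mul, Complex.conj_conj, mul_assoc]
  rw [h6]
  ring

/-- the sum over the four phases of the first order terms -/
theorem four_sum (t x : ℂ) (h : 1 - t ^ 4 * x ^ 4 ≠ 0) :
    t / (1 - t * x) + (-t) / (1 - -t * x) + I * t / (1 - I * t * x) +
      -(I * t) / (1 - -(I * t) * x) = 4 * t ^ 4 * x ^ 3 / (1 - t ^ 4 * x ^ 4) := by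
  have e2 : I * I = -1 := I_mul_I
  have h4 : 1 - t ^ 4 * x ^ 4 = (1 - t * x) * (1 + t * x) * (1 + t ^ 2 * x ^ 2) := by ring
  have h5 : 1 + t ^ 2 * x ^ 2 = (1 - I * t * x) * (1 + I * t * x) := by
    linear_combination (t ^ 2 * x ^ 2) * e2
  rw [h4] at h
  have g3 := (mul_ne_zero_iff.1 h).2
  have g1 := (mul_ne_zero_iff.1 (mul_ne_zero_iff.1 h).1).1
  have g2 := (mul_ne_zero_iff.1 (mul_ne_zero_iff.1 h).1).2
  have g6 := g3
  rw [h5] at g3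
  have g4 := (mul_ne_zero_iff.1 g3).1
  have g5 := (mul_ne_zero_iff.1 g3).2
  have a1 : t / (1 - t * x) + (-t) / (1 - -t * x) = 2 * t ^ 2 * x / ((1 - t * x) * (1 + t * x)) := by
    have : 1 - -t * x = 1 + t * x := by ring
    rw [this]
    field_simp
    ring
  have a2 : I * t / (1 - I * t * x) + -(I * t) / (1 - -(I * t) * x) =
      -(2 * t ^ 2 * x) / (1 + t ^ 2 * x ^ 2) := by
    have : 1 - -(I * t) * x = 1 + I * t * x := by ring
    rw [this, h5, div_add_div _ _ g4 g5]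
    congr 1
    linear_combination (2 * t ^ 2 * x) * e2
  rw [add_assoc, a2, a1, h4, div_add_div _ _ (mul_ne_zero g1 g2) g6]
  congr 1
  ring

theorem third_low {y τ e : ℂ} {t : ℝ} (hτ : ‖τ‖ = t) (h : ‖τ‖ * ‖y‖ ≤ 1 / 2) :
    t ^ 2 * ‖e‖ ^ 2 / 4 ≤ ‖τ‖ ^ 2 * ‖e‖ ^ 2 / ‖1 - (starRingEnd ℂ) τ * y‖ ^ 2 := by
  have h1 : ‖(starRingEnd ℂ) τ * y‖ ≤ 1 / 2 := by
    rw [norm_mul, RCLike.norm_conj]
    exact h
  have h2 : ‖1 - (starRingEnd ℂ) τ * y‖ ≤ 2 := by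
    refine (norm_sub_le _ _).trans ?_
    rw [norm_one]
    linarith
  have h3 : 1 / 2 ≤ ‖1 - (starRingEnd ℂ) τ * y‖ := by
    have := norm_sub_norm_le (1 : ℂ) ((starRingEnd ℂ) τ * y)
    rw [norm_one] at this
    linarith
  rw [hτ]
  apply div_le_div_of_nonneg_left (by positivity) (by positivity)
  nlinarith

theorem ne_of_small {y τ : ℂ} (h : ‖τ‖ * ‖y‖ ≤ 1 / 2) : 1 - (starRingEnd ℂ) τ * y ≠ 0 := by
  intro h0
  have h1 : ‖(starRingEnd ℂ) τ * y‖ ≤ 1 / 2 := by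
    rw [norm_mul, RCLike.norm_conj]
    exact h
  rw [← sub_eq_zero.1 h0, norm_one] at h1
  norm_num at h1

/-- the sum over the four phases, from below -/
theorem four_low {a u y : ℂ} {M t : ℝ} (ht : 0 < t) (hM : 0 ≤ M) (htM : t * M ≤ 1 / 2)
    (ha : ‖a‖ ≤ 1) (hu : ‖u‖ ≤ M) (hy : ‖y‖ ≤ M) :
    4 * ‖a‖ ^ 2 + t ^ 2 * ‖a * (starRingEnd ℂ) y - u‖ ^ 2 - 32 * M ^ 4 * t ^ 4 ≤
      ‖(a - (t : ℂ) * u) / (1 - (starRingEnd ℂ) (t : ℂ) * y)‖ ^ 2 +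
      ‖(a - -(t : ℂ) * u) / (1 - (starRingEnd ℂ) (-(t : ℂ)) * y)‖ ^ 2 +
      ‖(a - I * (t : ℂ) * u) / (1 - (starRingEnd ℂ) (I * (t : ℂ)) * y)‖ ^ 2 +
      ‖(a - -(I * (t : ℂ)) * u) / (1 - (starRingEnd ℂ) (-(I * (t : ℂ))) * y)‖ ^ 2 := by
  have hy1 : t * ‖y‖ ≤ 1 / 2 := (mul_le_mul_of_nonneg_left hy ht.le).trans htM
  have n1 : ‖(t : ℂ)‖ = t := by rw [Complex.norm_real, Real.norm_eq_abs, abs_of_pos ht]
  have n2 : ‖-(t : ℂ)‖ = t := by rw [norm_neg, n1]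
  have n3 : ‖I * (t : ℂ)‖ = t := by rw [norm_mul, norm_I, one_mul, n1]
  have n4 : ‖-(I * (t : ℂ))‖ = t := by rw [norm_neg, n3]
  rw [shift_sq _ _ _ _ (ne_of_small (by rw [n1]; exact hy1)),
    shift_sq _ _ _ _ (ne_of_small (by rw [n2]; exact hy1)),
    shift_sq _ _ _ _ (ne_of_small (by rw [n3]; exact hy1)),
    shift_sq _ _ _ _ (ne_of_small (by rw [n4]; exact hy1))]
  set e := a * (starRingEnd ℂ) y - u with he
  set x := (starRingEnd ℂ) y with hx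
  have hxn : ‖x‖ ≤ M := by rw [hx, RCLike.norm_conj]; exact hy
  have c1 := third_low (y := y) (e := e) n1 (by rw [n1]; exact hy1)
  have c2 := third_low (y := y) (e := e) n2 (by rw [n2]; exact hy1)
  have c3 := third_low (y := y) (e := e) n3 (by rw [n3]; exact hy1)
  have c4 := third_low (y := y) (e := e) n4 (by rw [n4]; exact hy1)
  have hen : ‖e‖ ≤ 2 * M := by
    rw [he]
    refine (norm_sub_le _ _).trans ?_
    rw [norm_mul]
    nlinarith [norm_nonneg a, norm_nonneg x]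
  have hq : ‖(t : ℂ) ^ 4 * x ^ 4‖ ≤ 1 / 2 := by
    rw [← mul_pow, norm_pow, norm_mul, n1]
    have h1 : t * ‖x‖ ≤ 1 / 2 := (mul_le_mul_of_nonneg_left hxn ht.le).trans htM
    calc (t * ‖x‖) ^ 4 ≤ (1 / 2 : ℝ) ^ 4 := pow_le_pow_left₀ (by positivity) h1 4
      _ ≤ 1 / 2 := by norm_num
  have hq2 : 1 / 2 ≤ ‖1 - (t : ℂ) ^ 4 * x ^ 4‖ := by
    have := norm_sub_norm_le (1 : ℂ) ((t : ℂ) ^ 4 * x ^ 4)
    rw [norm_one] at this
    linarith
  have hq3 : 1 - (t : ℂ) ^ 4 * x ^ 4 ≠ 0 := by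
    intro h0
    rw [h0, norm_zero] at hq2
    norm_num at hq2
  have hs := four_sum (t : ℂ) x hq3
  have hb : ‖(starRingEnd ℂ) a * e * (4 * (t : ℂ) ^ 4 * x ^ 3 / (1 - (t : ℂ) ^ 4 * x ^ 4))‖ ≤
      16 * M ^ 4 * t ^ 4 := by
    rw [norm_mul, norm_mul, norm_div, norm_mul, norm_mul, norm_pow, norm_pow, n1, RCLike.norm_conj]
    have h4 : ‖(4 : ℂ)‖ = 4 := by norm_num
    rw [h4]
    have h1 : ‖a‖ * ‖e‖ ≤ 2 * M := by nlinarith [norm_nonneg a, norm_nonneg e]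
    have h2 : 4 * t ^ 4 * ‖x‖ ^ 3 / ‖1 - (t : ℂ) ^ 4 * x ^ 4‖ ≤ 8 * t ^ 4 * M ^ 3 := by
      rw [div_le_iff₀ (by linarith)]
      have h3 : ‖x‖ ^ 3 ≤ M ^ 3 := pow_le_pow_left₀ (norm_nonneg x) hxn 3
      calc 4 * t ^ 4 * ‖x‖ ^ 3 ≤ 4 * t ^ 4 * M ^ 3 := by gcongr
        _ = 8 * t ^ 4 * M ^ 3 * (1 / 2) := by ring
        _ ≤ _ := by gcongr
    calc ‖a‖ * ‖e‖ * (4 * t ^ 4 * ‖x‖ ^ 3 / ‖1 - (t : ℂ) ^ 4 * x ^ 4‖)
        ≤ 2 * M * (8 * t ^ 4 * M ^ 3) := by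
          apply mul_le_mul h1 h2 (by positivity) (by positivity)
      _ = _ := by ring
  have hr := (abs_le.1 ((Complex.abs_re_le_norm _).trans hb)).1
  rw [← hs, mul_add, mul_add, mul_add, Complex.add_re, Complex.add_re, Complex.add_re] at hr
  nlinarith

theorem zero_of_int {φ : ℂ → ℝ} (hc : ContinuousOn φ (ball (0 : ℂ) 1)) (h0 : ∀ z, 0 ≤ φ z)
    (hi : IntegrableOn φ (ball (0 : ℂ) 1)) (h : ∫ z in ball (0 : ℂ) 1, φ z = 0) :
    ∀ z ∈ ball (0 : ℂ) 1, φ z = 0 := by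
  have h1 := (integral_eq_zero_iff_of_nonneg (fun z => h0 z) hi).1 h
  have h2 := MeasureTheory.Measure.eqOn_open_of_ae_eq h1 isOpen_ball hc continuousOn_const
  exact fun z hz => h2 hz

/-- a shifted function is square integrable -/
theorem shift_int {G I x y : ℂ → ℂ} (hG : ContinuousOn G (ball 0 1))
    (hGi : IntegrableOn (fun z => ‖G z‖ ^ 2) (ball 0 1)) (hI : ContinuousOn I (ball 0 1))
    (hx : ContinuousOn x (ball 0 1)) (hy : ContinuousOn y (ball 0 1))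
    (hI1 : ∀ z ∈ ball (0 : ℂ) 1, ‖I z‖ ≤ 1) {M : ℝ} (hM : 0 ≤ M)
    (hxM : ∀ z ∈ ball (0 : ℂ) 1, ‖x z‖ ≤ M) (hyM : ∀ z ∈ ball (0 : ℂ) 1, ‖y z‖ ≤ M) {τ : ℂ}
    (hτ : ‖τ‖ * M ≤ 1 / 2) :
    IntegrableOn (fun z => ‖G z * (I z - τ * x z) / (1 - (starRingEnd ℂ) τ * y z)‖ ^ 2)
      (ball 0 1) := by
  have hsm : ∀ z ∈ ball (0 : ℂ) 1, ‖τ‖ * ‖y z‖ ≤ 1 / 2 := fun z hz =>
    (mul_le_mul_of_nonneg_left (hyM z hz) (norm_nonneg τ)).trans hτ
  have hcont : ContinuousOn (fun z => ‖G z * (I z - τ * x z) /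
      (1 - (starRingEnd ℂ) τ * y z)‖ ^ 2) (ball 0 1) := by
    refine ContinuousOn.pow (ContinuousOn.norm (ContinuousOn.div ?_ ?_ ?_)) 2
    · exact hG.mul (hI.sub (continuousOn_const.mul hx))
    · exact continuousOn_const.sub (continuousOn_const.mul hy)
    · exact fun z hz => ne_of_small (hsm z hz)
  refine Integrable.mono' (hGi.const_mul 16) (hcont.aestronglyMeasurable measurableSet_ball) ?_
  rw [ae_restrict_iff' measurableSet_ball]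
  refine Eventually.of_forall fun z hz => ?_
  rw [Real.norm_eq_abs, abs_of_nonneg (by positivity), norm_div, norm_mul]
  have h1 : 1 / 2 ≤ ‖1 - (starRingEnd ℂ) τ * y z‖ := by
    have := norm_sub_norm_le (1 : ℂ) ((starRingEnd ℂ) τ * y z)
    rw [norm_one, norm_mul, RCLike.norm_conj] at this
    linarith [hsm z hz]
  have h2 : ‖I z - τ * x z‖ ≤ 2 := by
    refine (norm_sub_le _ _).trans ?_
    rw [norm_mul]
    have h3 : ‖τ‖ * ‖x z‖ ≤ ‖τ‖ * M := mul_le_mul_of_nonneg_left (hxM z hz) (norm_nonneg τ)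
    linarith [hI1 z hz]
  have h3 : ‖G z‖ * ‖I z - τ * x z‖ / ‖1 - (starRingEnd ℂ) τ * y z‖ ≤ 4 * ‖G z‖ := by
    rw [div_le_iff₀ (by linarith)]
    nlinarith [norm_nonneg (G z), norm_nonneg (I z - τ * x z), mul_nonneg (norm_nonneg (G z))
      (sub_nonneg.2 h1), mul_nonneg (norm_nonneg (G z)) (sub_nonneg.2 h2)]
  calc (‖G z‖ * ‖I z - τ * x z‖ / ‖1 - (starRingEnd ℂ) τ * y z‖) ^ 2 ≤ (4 * ‖G z‖) ^ 2 :=
        pow_le_pow_left₀ (by positivity) h3 2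
    _ = 16 * ‖G z‖ ^ 2 := by ring

/-- second order: the integral inequality -/
theorem int_low {G I x y : ℂ → ℂ} (hG : ContinuousOn G (ball 0 1))
    (hGi : IntegrableOn (fun z => ‖G z‖ ^ 2) (ball 0 1)) (hI : ContinuousOn I (ball 0 1))
    (hx : ContinuousOn x (ball 0 1)) (hy : ContinuousOn y (ball 0 1))
    (hI1 : ∀ z ∈ ball (0 : ℂ) 1, ‖I z‖ ≤ 1) {M : ℝ} (hM : 0 ≤ M)
    (hxM : ∀ z ∈ ball (0 : ℂ) 1, ‖x z‖ ≤ M) (hyM : ∀ z ∈ ball (0 : ℂ) 1, ‖y z‖ ≤ M)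
    (hone : sq (fun z => G z * I z) 1 = 1) {t₀ : ℝ}
    (h : ∀ τ : ℂ, ‖τ‖ ≤ t₀ → sq (fun z => G z * (I z - τ * x z) /
      (1 - (starRingEnd ℂ) τ * y z)) 1 ≤ 1) {t : ℝ} (ht : 0 < t) (htt : t ≤ t₀)
    (htM : t * M ≤ 1 / 2)
    (hei : IntegrableOn (fun z => ‖G z‖ ^ 2 * ‖I z * (starRingEnd ℂ) (y z) - x z‖ ^ 2)
      (ball 0 1)) :
    Real.pi⁻¹ * ∫ z in ball (0 : ℂ) 1, ‖G z‖ ^ 2 * ‖I z * (starRingEnd ℂ) (y z) - x z‖ ^ 2 ≤
      32 * M ^ 4 * sq G 1 * t ^ 2 := by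
  have n1 : ‖(t : ℂ)‖ = t := by rw [Complex.norm_real, Real.norm_eq_abs, abs_of_pos ht]
  have n2 : ‖-(t : ℂ)‖ = t := by rw [norm_neg, n1]
  have n3 : ‖Complex.I * (t : ℂ)‖ = t := by rw [norm_mul, norm_I, one_mul, n1]
  have n4 : ‖-(Complex.I * (t : ℂ))‖ = t := by rw [norm_neg, n3]
  have s1 := h _ (n1.le.trans htt)
  have s2 := h _ (n2.le.trans htt)
  have s3 := h _ (n3.le.trans htt)
  have s4 := h _ (n4.le.trans htt)
  have i1 := shift_int hG hGi hI hx hy hI1 hM hxM hyM (τ := (t : ℂ)) (by rw [n1]; exact htM)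
  have i2 := shift_int hG hGi hI hx hy hI1 hM hxM hyM (τ := -(t : ℂ)) (by rw [n2]; exact htM)
  have i3 := shift_int hG hGi hI hx hy hI1 hM hxM hyM (τ := Complex.I * (t : ℂ))
    (by rw [n3]; exact htM)
  have i4 := shift_int hG hGi hI hx hy hI1 hM hxM hyM (τ := -(Complex.I * (t : ℂ)))
    (by rw [n4]; exact htM)
  have i0 : IntegrableOn (fun z => ‖G z * I z‖ ^ 2) (ball 0 1) := by
    have := shift_int hG hGi hI hx hy hI1 hM hxM hyM (τ := 0) (by rw [norm_zero]; norm_num)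
    simpa using this
  have key : ∀ z ∈ ball (0 : ℂ) 1, 4 * ‖G z * I z‖ ^ 2 +
      t ^ 2 * (‖G z‖ ^ 2 * ‖I z * (starRingEnd ℂ) (y z) - x z‖ ^ 2) -
      32 * M ^ 4 * t ^ 4 * ‖G z‖ ^ 2 ≤
      ‖G z * (I z - (t : ℂ) * x z) / (1 - (starRingEnd ℂ) (t : ℂ) * y z)‖ ^ 2 +
      ‖G z * (I z - -(t : ℂ) * x z) / (1 - (starRingEnd ℂ) (-(t : ℂ)) * y z)‖ ^ 2 +
      ‖G z * (I z - Complex.I * (t : ℂ) * x z) /
        (1 - (starRingEnd ℂ) (Complex.I * (t : ℂ)) * y z)‖ ^ 2 +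
      ‖G z * (I z - -(Complex.I * (t : ℂ)) * x z) /
        (1 - (starRingEnd ℂ) (-(Complex.I * (t : ℂ))) * y z)‖ ^ 2 := by
    intro z hz
    have h1 := mul_le_mul_of_nonneg_left
      (four_low ht hM htM (hI1 z hz) (hxM z hz) (hyM z hz)) (sq_nonneg ‖G z‖)
    have h2 : ∀ w d : ℂ, ‖G z * w / d‖ ^ 2 = ‖G z‖ ^ 2 * ‖w / d‖ ^ 2 := by
      intro w d
      rw [mul_div_assoc, norm_mul, mul_pow]
    rw [h2, h2, h2, h2, norm_mul, mul_pow]
    nlinarith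
  have hmono := setIntegral_mono_on (μ := volume) (s := ball (0 : ℂ) 1)
    (((i0.const_mul 4).add (hei.const_mul (t ^ 2))).sub (hGi.const_mul (32 * M ^ 4 * t ^ 4)))
    (((i1.add i2).add i3).add i4) measurableSet_ball key
  have e1 := integral_sub ((i0.const_mul 4).add (hei.const_mul (t ^ 2)))
    (hGi.const_mul (32 * M ^ 4 * t ^ 4))
  have e2 := integral_add (i0.const_mul 4) (hei.const_mul (t ^ 2))
  have e3 := integral_add ((i1.add i2).add i3) i4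
  have e4 := integral_add (i1.add i2) i3
  have e5 := integral_add i1 i2
  simp only [Pi.add_apply] at e1 e3 e4
  rw [e2, integral_const_mul, integral_const_mul, integral_const_mul] at e1
  rw [e5] at e4
  rw [e4] at e3
  have hm : (∫ z in ball (0 : ℂ) 1, (4 * ‖G z * I z‖ ^ 2 +
      t ^ 2 * (‖G z‖ ^ 2 * ‖I z * (starRingEnd ℂ) (y z) - x z‖ ^ 2) -
      32 * M ^ 4 * t ^ 4 * ‖G z‖ ^ 2)) ≤ ∫ z in ball (0 : ℂ) 1,
      (‖G z * (I z - (t : ℂ) * x z) / (1 - (starRingEnd ℂ) (t : ℂ) * y z)‖ ^ 2 +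
      ‖G z * (I z - -(t : ℂ) * x z) / (1 - (starRingEnd ℂ) (-(t : ℂ)) * y z)‖ ^ 2 +
      ‖G z * (I z - Complex.I * (t : ℂ) * x z) /
        (1 - (starRingEnd ℂ) (Complex.I * (t : ℂ)) * y z)‖ ^ 2 +
      ‖G z * (I z - -(Complex.I * (t : ℂ)) * x z) /
        (1 - (starRingEnd ℂ) (-(Complex.I * (t : ℂ))) * y z)‖ ^ 2) := hmono
  rw [e1, e3] at hm
  unfold Pool.Agent.Helper23.KB.sq at s1 s2 s3 s4 hone ⊢
  have hpi : 0 < Real.pi⁻¹ := by positivity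
  have hm2 := mul_le_mul_of_nonneg_left hm hpi.le
  have ht2 : 0 < t ^ 2 := by positivity
  rw [← mul_le_mul_iff_right₀ ht2]
  nlinarith

/-- second order, with the phases -/
theorem second_zero {G I x y : ℂ → ℂ} (hG : ContinuousOn G (ball 0 1))
    (hGi : IntegrableOn (fun z => ‖G z‖ ^ 2) (ball 0 1)) (hI : ContinuousOn I (ball 0 1))
    (hx : ContinuousOn x (ball 0 1)) (hy : ContinuousOn y (ball 0 1))
    (hI1 : ∀ z ∈ ball (0 : ℂ) 1, ‖I z‖ ≤ 1) {M : ℝ} (hM : 0 ≤ M)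
    (hxM : ∀ z ∈ ball (0 : ℂ) 1, ‖x z‖ ≤ M) (hyM : ∀ z ∈ ball (0 : ℂ) 1, ‖y z‖ ≤ M)
    (hone : sq (fun z => G z * I z) 1 = 1) {t₀ : ℝ} (ht₀ : 0 < t₀)
    (h : ∀ τ : ℂ, ‖τ‖ ≤ t₀ → sq (fun z => G z * (I z - τ * x z) /
      (1 - (starRingEnd ℂ) τ * y z)) 1 ≤ 1) :
    ∀ z ∈ ball (0 : ℂ) 1, G z = 0 ∨ x z = I z * (starRingEnd ℂ) (y z) := by
  set φ : ℂ → ℝ := fun z => ‖G z‖ ^ 2 * ‖I z * (starRingEnd ℂ) (y z) - x z‖ ^ 2 with hφ
  have hc : ContinuousOn φ (ball 0 1) := by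
    refine (hG.norm.pow 2).mul ((ContinuousOn.norm (ContinuousOn.sub (hI.mul ?_) hx)).pow 2)
    exact Complex.continuous_conj.comp_continuousOn hy
  have hi : IntegrableOn φ (ball 0 1) := by
    refine Integrable.mono' (hGi.const_mul ((2 * M) ^ 2))
      (hc.aestronglyMeasurable measurableSet_ball) ?_
    rw [ae_restrict_iff' measurableSet_ball]
    refine Eventually.of_forall fun z hz => ?_
    rw [Real.norm_eq_abs, abs_of_nonneg (by positivity)]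
    have h1 : ‖I z * (starRingEnd ℂ) (y z) - x z‖ ≤ 2 * M := by
      refine (norm_sub_le _ _).trans ?_
      rw [norm_mul, RCLike.norm_conj]
      have := mul_le_mul (hI1 z hz) (hyM z hz) (norm_nonneg _) zero_le_one
      linarith [hxM z hz]
    calc ‖G z‖ ^ 2 * ‖I z * (starRingEnd ℂ) (y z) - x z‖ ^ 2 ≤ ‖G z‖ ^ 2 * (2 * M) ^ 2 := by
          gcongr
      _ = _ := by ring
  have hle : ∀ᶠ t : ℝ in 𝓝[>] 0, Real.pi⁻¹ * ∫ z in ball (0 : ℂ) 1, φ z ≤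
      32 * M ^ 4 * sq G 1 * t ^ 2 := by
    have h1 : ∀ᶠ t : ℝ in 𝓝[>] 0, t < t₀ ∧ t * (M + 1) < 1 / 2 := by
      have h2 : ∀ᶠ t : ℝ in 𝓝 0, t < t₀ ∧ t * (M + 1) < 1 / 2 := by
        refine (eventually_lt_nhds ht₀).and ?_
        have h3 : Tendsto (fun t : ℝ => t * (M + 1)) (𝓝 0) (𝓝 (0 * (M + 1))) :=
          tendsto_id.mul_const _
        rw [zero_mul] at h3
        exact h3.eventually (eventually_lt_nhds (by norm_num))
      exact h2.filter_mono nhdsWithin_le_nhds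
    filter_upwards [h1, self_mem_nhdsWithin] with t ht ht'
    have ht'' : 0 < t := ht'
    exact int_low hG hGi hI hx hy hI1 hM hxM hyM hone h ht'' ht.1.le (by nlinarith [ht.2]) hi
  have hlim : Tendsto (fun t : ℝ => 32 * M ^ 4 * sq G 1 * t ^ 2) (𝓝[>] 0)
      (𝓝 (32 * M ^ 4 * sq G 1 * 0 ^ 2)) :=
    Tendsto.mono_left (Continuous.tendsto (by fun_prop) 0) nhdsWithin_le_nhds
  have hz2 : Real.pi⁻¹ * ∫ z in ball (0 : ℂ) 1, φ z ≤ 32 * M ^ 4 * sq G 1 * 0 ^ 2 :=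
    ge_of_tendsto hlim hle
  have hpos : ∀ z, 0 ≤ φ z := fun z => by positivity
  have hint : ∫ z in ball (0 : ℂ) 1, φ z = 0 := by
    have h1 : 0 ≤ ∫ z in ball (0 : ℂ) 1, φ z := integral_nonneg hpos
    have hpi : 0 < Real.pi⁻¹ := by positivity
    rw [zero_pow two_ne_zero, mul_zero] at hz2
    nlinarith
  intro z hz
  have h1 := zero_of_int hc hpos hi hint z hz
  rcases mul_eq_zero.1 h1 with h2 | h2
  · left
    exact norm_eq_zero.1 (pow_eq_zero_iff two_ne_zero |>.1 h2)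
  · right
    exact (sub_eq_zero.1 (norm_eq_zero.1 (pow_eq_zero_iff two_ne_zero |>.1 h2))).symm

end Pool.Agent.Helper82.KU

namespace Pool.Agent.Helper23.KU

open Polynomial Filter Topology Metric MeasureTheory Set
open Pool.Agent.Helper23.KB (Sph Dom KF Ext sq area_series ms_series kf_le kf_dn kf_nonneg int_cont)

/-- second order -/
theorem second_order {G I x y : ℂ → ℂ} (hG : DifferentiableOn ℂ G (ball 0 1))
    (hGi : IntegrableOn (fun z => ‖G z‖ ^ 2) (ball 0 1)) (hG0 : ∃ z ∈ ball (0 : ℂ) 1, G z ≠ 0)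
    (hI : DifferentiableOn ℂ I (ball 0 1)) (hx : DifferentiableOn ℂ x (ball 0 1))
    (hy : DifferentiableOn ℂ y (ball 0 1)) (hI1 : ∀ z ∈ ball (0 : ℂ) 1, ‖I z‖ ≤ 1) {M : ℝ}
    (hxM : ∀ z ∈ ball (0 : ℂ) 1, ‖x z‖ ≤ M) (hyM : ∀ z ∈ ball (0 : ℂ) 1, ‖y z‖ ≤ M)
    (hone : sq (fun z => G z * I z) 1 = 1) {t₀ : ℝ} (ht₀ : 0 < t₀)
    (h : ∀ τ : ℂ, ‖τ‖ ≤ t₀ → sq (fun z => G z * (I z - τ * x z) /
      (1 - (starRingEnd ℂ) τ * y z)) 1 ≤ 1) :
    ∀ z ∈ ball (0 : ℂ) 1, x z = I z * (starRingEnd ℂ) (y z) := by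
  have hM : 0 ≤ M := (norm_nonneg _).trans (hxM 0 (mem_ball_self one_pos))
  have h1 := Pool.Agent.Helper82.KU.second_zero hG.continuousOn hGi hI.continuousOn
    hx.continuousOn hy.continuousOn hI1 hM hxM hyM hone ht₀ h
  intro z₀ hz₀
  by_cases hz : G z₀ = 0
  · have hGa : AnalyticOnNhd ℂ G (ball 0 1) := hG.analyticOnNhd isOpen_ball
    have h2 : ∀ᶠ z in 𝓝[≠] z₀, G z ≠ 0 := by
      rcases (hGa z₀ hz₀).eventually_eq_zero_or_eventually_ne_zero with h3 | h3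
      · exfalso
        obtain ⟨w, hw, hw0⟩ := hG0
        exact hw0 (hGa.eqOn_zero_of_preconnected_of_eventuallyEq_zero
          (convex_ball (0 : ℂ) 1).isPreconnected hz₀ h3 hw)
      · exact h3
    have h3 : ∀ᶠ z in 𝓝[≠] z₀, z ∈ ball (0 : ℂ) 1 :=
      nhdsWithin_le_nhds (isOpen_ball.mem_nhds hz₀)
    have h4 : ∀ᶠ z in 𝓝[≠] z₀, x z - I z * (starRingEnd ℂ) (y z) = 0 := by
      filter_upwards [h2, h3] with z hz2 hz3
      rcases h1 z hz3 with h5 | h5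
      · exact absurd h5 hz2
      · rw [h5, sub_self]
    have hxc := hx.continuousOn.continuousAt (isOpen_ball.mem_nhds hz₀)
    have hIc := hI.continuousOn.continuousAt (isOpen_ball.mem_nhds hz₀)
    have hyc := hy.continuousOn.continuousAt (isOpen_ball.mem_nhds hz₀)
    have h5 : ContinuousAt (fun z => x z - I z * (starRingEnd ℂ) (y z)) z₀ :=
      hxc.sub (hIc.mul (Complex.continuous_conj.continuousAt.comp hyc))
    have h6 : Tendsto (fun z => x z - I z * (starRingEnd ℂ) (y z)) (𝓝[≠] z₀)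
        (𝓝 (x z₀ - I z₀ * (starRingEnd ℂ) (y z₀))) := h5.tendsto.mono_left nhdsWithin_le_nhds
    have h7 : Tendsto (fun z => x z - I z * (starRingEnd ℂ) (y z)) (𝓝[≠] z₀) (𝓝 0) :=
      tendsto_const_nhds.congr' (h4.mono fun z hz => hz.symm)
    exact sub_eq_zero.1 (tendsto_nhds_unique h6 h7)
  · exact (h1 z₀ hz₀).resolve_left hz

end Pool.Agent.Helper23.KU
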