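import Pool.Agent.Helper54.KR.Rat
import Pool.Agent.Helper8.KR.Inj
import Pool.Agent.Helper23.KU.Final
import Pool.Agent.Helper54.KU.Zeros
import Pool.Agent.Helper23.KB.Zeros

/-!
# KR: the exceptional radii are finitely many in every compact interval
-/

set_option autoImplicit false

namespace Pool.Agent.Helper23.KU

open Polynomial Filter Topology Metric MeasureTheory Set
open Pool.Agent.Helper23.KB (Sph Dom KF Ext sq ms av ms_series area_series kf_le kf_nonneg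
  cont_circ ms_le ms_f_le sq_ge refl_norm av_mono av_mul sph_mono)
open Pool.Agent.Helper21.IM (PS ps_exists)

/-- Korenblum's function decreases -/
theorem kf_anti {a c : ℝ} (h : a ≤ c) : KF c ≤ KF a := by
  refine le_csInf ⟨1, zero_le_one, _, _, sph_mono 0, sph_mono 0, fun z _ _ => (one_mul _).ge⟩ ?_
  rintro t ⟨ht, f, g, hf, hg, hd⟩
  exact kf_le ht hf hg fun z hz hz1 => hd z (h.trans hz) hz1

/-- the weights of the mean square are bounded -/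
theorem weight_bound {x : ℝ} (h0 : 0 ≤ x) (h1 : x < 1) (k : ℕ) :
    ((k : ℝ) + 1) * x ^ k ≤ 1 / (1 - x) := by
  rw [le_div_iff₀ (by linarith)]
  have h2 : ((k : ℝ) + 1) * x ^ k ≤ ∑ j ∈ Finset.range (k + 1), x ^ j := by
    have h3 : ∑ j ∈ Finset.range (k + 1), x ^ k ≤ ∑ j ∈ Finset.range (k + 1), x ^ j :=
      Finset.sum_le_sum fun j hj =>
        pow_le_pow_of_le_one h0 h1.le (Nat.lt_succ_iff.1 (Finset.mem_range.1 hj))
    rw [Finset.sum_const, Finset.card_range, nsmul_eq_mul] at h3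
    push_cast at h3
    exact h3
  have h4 : (∑ j ∈ Finset.range (k + 1), x ^ j) * (1 - x) = 1 - x ^ (k + 1) := by
    rw [mul_comm]
    exact mul_neg_geom_sum x (k + 1)
  have h5 : 0 ≤ x ^ (k + 1) := pow_nonneg h0 _
  calc ((k : ℝ) + 1) * x ^ k * (1 - x) ≤ (∑ j ∈ Finset.range (k + 1), x ^ j) * (1 - x) :=
        mul_le_mul_of_nonneg_right h2 (by linarith)
    _ ≤ 1 := by linarith

/-- a Blaschke factor is small inside -/
theorem factor_small {b ρ : ℝ} (hb : 0 ≤ b) (hbρ : b < ρ) {z w : ℂ} (hz : ‖z‖ ≤ b)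
    (hw : ‖w‖ ≤ b) :
    ‖z - w‖ ^ 2 ≤ (1 - ((ρ ^ 2 - b ^ 2) / (ρ ^ 2 + b ^ 2)) ^ 2) *
      ‖((ρ : ℂ) ^ 2 - (starRingEnd ℂ) w * z) / ρ‖ ^ 2 := by
  have hρ : 0 < ρ := hb.trans_lt hbρ
  have h1 : ‖((ρ : ℂ) ^ 2 - (starRingEnd ℂ) w * z)‖ ^ 2 =
      ρ ^ 2 * ‖z - w‖ ^ 2 + (ρ ^ 2 - ‖z‖ ^ 2) * (ρ ^ 2 - ‖w‖ ^ 2) := by
    rw [← Complex.normSq_eq_norm_sq, ← Complex.normSq_eq_norm_sq, ← Complex.normSq_eq_norm_sq,
      ← Complex.normSq_eq_norm_sq]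
    simp only [Complex.normSq_apply, Complex.sub_re, Complex.sub_im, Complex.mul_re,
      Complex.mul_im, Complex.conj_re, Complex.conj_im, ← Complex.ofReal_pow, Complex.ofReal_re,
      Complex.ofReal_im]
    ring
  have h2 : ‖((ρ : ℂ) ^ 2 - (starRingEnd ℂ) w * z)‖ ≤ ρ ^ 2 + b ^ 2 := by
    refine (norm_sub_le _ _).trans ?_
    rw [norm_mul, RCLike.norm_conj, norm_pow, Complex.norm_real, Real.norm_eq_abs, sq_abs]
    nlinarith [norm_nonneg z, norm_nonneg w]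
  have h3 : (ρ ^ 2 - b ^ 2) ^ 2 ≤ (ρ ^ 2 - ‖z‖ ^ 2) * (ρ ^ 2 - ‖w‖ ^ 2) := by
    have h4 : ρ ^ 2 - b ^ 2 ≤ ρ ^ 2 - ‖z‖ ^ 2 := by nlinarith [norm_nonneg z]
    have h5 : ρ ^ 2 - b ^ 2 ≤ ρ ^ 2 - ‖w‖ ^ 2 := by nlinarith [norm_nonneg w]
    have h6 : 0 ≤ ρ ^ 2 - b ^ 2 := by nlinarith
    nlinarith
  set A := ‖((ρ : ℂ) ^ 2 - (starRingEnd ℂ) w * z)‖ with hA
  have hs : 0 < ρ ^ 2 + b ^ 2 := by positivity
  have h7 : ((ρ ^ 2 - b ^ 2) / (ρ ^ 2 + b ^ 2)) ^ 2 * A ^ 2 ≤ (ρ ^ 2 - b ^ 2) ^ 2 := by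
    rw [div_pow, div_mul_eq_mul_div, div_le_iff₀ (by positivity)]
    have h8 : A ^ 2 ≤ (ρ ^ 2 + b ^ 2) ^ 2 := pow_le_pow_left₀ (norm_nonneg _) h2 2
    exact mul_le_mul_of_nonneg_left h8 (by positivity)
  have h9 : ρ ^ 2 * ‖z - w‖ ^ 2 ≤ (1 - ((ρ ^ 2 - b ^ 2) / (ρ ^ 2 + b ^ 2)) ^ 2) * A ^ 2 := by
    nlinarith
  have h10 : ‖((ρ : ℂ) ^ 2 - (starRingEnd ℂ) w * z) / ρ‖ ^ 2 = A ^ 2 / ρ ^ 2 := by
    rw [norm_div, Complex.norm_real, Real.norm_eq_abs, abs_of_pos hρ, div_pow]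
  rw [h10, ← mul_div_assoc, le_div_iff₀ (by positivity)]
  linarith

theorem ms_mono {h : ℂ → ℂ} (hd : DifferentiableOn ℂ h (ball 0 1)) {c ρ : ℝ} (h0 : 0 ≤ c)
    (hcρ : c ≤ ρ) (h1 : ρ < 1) : ms h c ≤ ms h ρ := by
  obtain ⟨b, hb⟩ := ps_exists hd
  refine hasSum_le (fun k => ?_) (ms_series hb h0 (hcρ.trans_lt h1)) (ms_series hb (h0.trans hcρ) h1)
  exact mul_le_mul_of_nonneg_left (pow_le_pow_left₀ h0 hcρ _) (by positivity)

theorem sq_le_ms {f : ℂ → ℂ} (hf : Sph f) {c : ℝ} (h0 : 0 < c) (h1 : c < 1) :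
    sq f c ≤ c ^ 2 * ms f c := by
  obtain ⟨a, ha⟩ := ps_exists hf.1
  refine hasSum_le (fun k => ?_) (area_series ha h0.le h1.le hf.2.1)
    ((ms_series ha h0.le h1).mul_left (c ^ 2))
  have h5 : (1 : ℝ) ≤ (k : ℝ) + 1 := by
    have := Nat.cast_nonneg (α := ℝ) k
    linarith
  have h6 : c ^ (2 * k + 2) / ((k : ℝ) + 1) ≤ c ^ (2 * k + 2) :=
    div_le_self (by positivity) h5
  calc ‖a k‖ ^ 2 * (c ^ (2 * k + 2) / ((k : ℝ) + 1)) ≤ ‖a k‖ ^ 2 * c ^ (2 * k + 2) := by gcongr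
    _ = _ := by ring

/-- the order of a zero of the second function is bounded -/
theorem ord_ineq {c b : ℝ} (h0 : 0 < c) (hcb : c ≤ b) (hb : b < 1) {f g w : ℂ → ℂ}
    (h : Ext c f g) {z₀ : ℂ} (hz₀ : ‖z₀‖ ≤ c) {n : ℕ} (hw : DifferentiableOn ℂ w (ball 0 1))
    (hg : ∀ z ∈ ball (0 : ℂ) 1, g z = (z - z₀) ^ n * w z) (hF : KF c ≤ 1) :
    1 - KF c ^ 2 ≤ (1 - ((((1 + b) / 2) ^ 2 - b ^ 2) / (((1 + b) / 2) ^ 2 + b ^ 2)) ^ 2) ^ n *
      (1 / (1 - ((1 + b) / 2) ^ 2)) := by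
  set ρ := (1 + b) / 2 with hρ
  have hb0 : 0 < b := h0.trans_le hcb
  have hbρ : b < ρ := by rw [hρ]; linarith
  have hρ1 : ρ < 1 := by rw [hρ]; linarith
  have hρ0 : 0 < ρ := hb0.trans hbρ
  have h1 : c < 1 := hcb.trans_lt hb
  set B := 1 - ((ρ ^ 2 - b ^ 2) / (ρ ^ 2 + b ^ 2)) ^ 2 with hB
  have hB0 : 0 ≤ B := by
    have h2 : (ρ ^ 2 - b ^ 2) / (ρ ^ 2 + b ^ 2) ≤ 1 := by
      rw [div_le_one (by positivity)]
      nlinarith
    have h3 : 0 ≤ (ρ ^ 2 - b ^ 2) / (ρ ^ 2 + b ^ 2) := div_nonneg (by nlinarith) (by positivity)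
    rw [hB]
    nlinarith
  set k : ℂ → ℂ := fun z => (((ρ : ℂ) ^ 2 - (starRingEnd ℂ) z₀ * z) / ρ) ^ n * w z with hk
  have hkd : DifferentiableOn ℂ k (ball 0 1) := by
    refine DifferentiableOn.mul ?_ hw
    fun_prop
  have e1 : ms g c ≤ B ^ n * ms k c := by
    have c1 := cont_circ h.2.1.1 h0.le h1
    have c2 := cont_circ hkd h0.le h1
    unfold ms
    rw [← av_mul]
    refine av_mono (c1.norm.pow 2) (continuous_const.mul (c2.norm.pow 2)) fun θ => ?_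
    have hn : ‖circleMap 0 c θ‖ = c := by rw [norm_circleMap_zero, abs_of_pos h0]
    have hzb : circleMap 0 c θ ∈ ball (0 : ℂ) 1 := by
      rw [mem_ball_zero_iff, hn]
      exact h1
    rw [hg _ hzb]
    simp only [hk, norm_mul, norm_pow, mul_pow]
    have h2 := factor_small hb0.le hbρ (z := circleMap 0 c θ) (w := z₀) (by rw [hn]; exact hcb)
      (hz₀.trans hcb)
    have h3 := pow_le_pow_left₀ (by positivity) h2 n
    rw [mul_pow] at h3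
    calc (‖circleMap 0 c θ - z₀‖ ^ n) ^ 2 * ‖w (circleMap 0 c θ)‖ ^ 2
        = (‖circleMap 0 c θ - z₀‖ ^ 2) ^ n * ‖w (circleMap 0 c θ)‖ ^ 2 := by
          rw [← pow_mul, ← pow_mul, mul_comm n 2]
      _ ≤ (B ^ n * (‖((ρ : ℂ) ^ 2 - (starRingEnd ℂ) z₀ * circleMap 0 c θ) / ρ‖ ^ 2) ^ n) *
          ‖w (circleMap 0 c θ)‖ ^ 2 := mul_le_mul_of_nonneg_right h3 (by positivity)
      _ = _ := by ring
  have e2 : ms k c ≤ ms k ρ := ms_mono hkd h0.le (hcb.trans hbρ.le) hρ1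
  have e3 : ms k ρ = ms g ρ := by
    unfold ms
    congr 1
    funext θ
    have hn : ‖circleMap 0 ρ θ‖ = ρ := by rw [norm_circleMap_zero, abs_of_pos hρ0]
    have hzb : circleMap 0 ρ θ ∈ ball (0 : ℂ) 1 := by
      rw [mem_ball_zero_iff, hn]
      exact hρ1
    rw [hg _ hzb]
    simp only [hk, norm_mul, norm_pow]
    rw [refl_norm hρ0 hn z₀]
  have e4 : ms g ρ ≤ 1 / (1 - ρ ^ 2) := by
    refine ms_le h.2.1 hρ0.le hρ1 fun j => ?_
    rw [pow_mul]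
    exact weight_bound (by positivity) (by nlinarith) j
  have e5 := sq_ge h0 h1 h
  have e6 := sq_le_ms h.1 h0 h1
  have e7 := ms_f_le h0 h1 h
  have hms : 0 ≤ ms g c := by
    obtain ⟨d, hd⟩ := ps_exists h.2.1.1
    exact (ms_series hd h0.le h1).nonneg fun k => by positivity
  have hc2 : c ^ 2 ≤ 1 := by nlinarith
  have hF2 : KF c ^ 2 ≤ 1 := by nlinarith [kf_nonneg c]
  have e8 : c ^ 2 * ms f c ≤ ms g c := by
    have h2 : c ^ 2 * ms f c ≤ c ^ 2 * (KF c ^ 2 * ms g c) :=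
      mul_le_mul_of_nonneg_left e7 (by positivity)
    have h3 : c ^ 2 * KF c ^ 2 ≤ 1 := by nlinarith [sq_nonneg c, sq_nonneg (KF c)]
    have h4 : c ^ 2 * (KF c ^ 2 * ms g c) ≤ ms g c := by
      rw [← mul_assoc]
      nlinarith
    linarith
  calc 1 - KF c ^ 2 ≤ ms g c := by linarith
    _ ≤ B ^ n * ms k c := e1
    _ ≤ B ^ n * (1 / (1 - ρ ^ 2)) := by
        refine mul_le_mul_of_nonneg_left ?_ (pow_nonneg hB0 n)
        rw [← e3] at e4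
        exact e2.trans e4

/-- the exceptional radii are finitely many in every compact interval on which `F < 1` -/
theorem exc_finite {a b : ℝ} (ha : 0 < a) (hb : b < 1) (hF : KF a < 1) :
    {c : ℝ | a ≤ c ∧ c ≤ b ∧ ∃ f g₁ g₂ : ℂ → ℂ, Ext c f g₁ ∧ Ext c f g₂ ∧
      ¬ ∃ α : ℝ, ∀ z ∈ ball (0 : ℂ) 1,
        g₂ z = Complex.exp (α * Complex.I) * g₁ z}.Finite := by
  rcases lt_or_ge b a with hab | hab
  · convert Set.finite_empty
    ext c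
    simp only [mem_setOf_eq, mem_empty_iff_false, iff_false]
    rintro ⟨h1, h2, _⟩
    linarith
  have hb0 : 0 < b := ha.trans_le hab
  set ρ := (1 + b) / 2 with hρ
  have hbρ : b < ρ := by rw [hρ]; linarith
  have hρ1 : ρ < 1 := by rw [hρ]; linarith
  have hρ0 : 0 < ρ := hb0.trans hbρ
  set B := 1 - ((ρ ^ 2 - b ^ 2) / (ρ ^ 2 + b ^ 2)) ^ 2 with hB
  have hq0 : 0 < (ρ ^ 2 - b ^ 2) / (ρ ^ 2 + b ^ 2) := div_pos (by nlinarith) (by positivity)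
  have hB1 : B < 1 := by
    rw [hB]
    have : 0 < ((ρ ^ 2 - b ^ 2) / (ρ ^ 2 + b ^ 2)) ^ 2 := by positivity
    linarith
  have hB0 : 0 ≤ B := by
    have h2 : (ρ ^ 2 - b ^ 2) / (ρ ^ 2 + b ^ 2) ≤ 1 := by
      rw [div_le_one (by positivity)]
      nlinarith
    rw [hB]
    nlinarith
  have hFa0 : 0 ≤ KF a := kf_nonneg a
  set δ := 1 - KF a ^ 2 with hδ
  have hδ0 : 0 < δ := by rw [hδ]; nlinarith
  have hρ2 : 0 < 1 - ρ ^ 2 := by nlinarith
  obtain ⟨M, hM⟩ : ∃ M : ℕ, B ^ M * (1 / (1 - ρ ^ 2)) < δ := by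
    have h2 : Tendsto (fun n : ℕ => B ^ n * (1 / (1 - ρ ^ 2))) atTop
        (𝓝 (0 * (1 / (1 - ρ ^ 2)))) :=
      (tendsto_pow_atTop_nhds_zero_of_lt_one hB0 hB1).mul_const _
    rw [zero_mul] at h2
    exact (h2.eventually (gt_mem_nhds hδ0)).exists
  set K : ℕ := ⌈(M : ℝ) / δ⌉₊ with hK
  set E : Set ℝ := {c : ℝ | a ≤ c ∧ c ≤ b ∧ ∃ f g₁ g₂ : ℂ → ℂ, Ext c f g₁ ∧ Ext c f g₂ ∧
      ¬ ∃ α : ℝ, ∀ z ∈ ball (0 : ℂ) 1, g₂ z = Complex.exp (α * Complex.I) * g₁ z} with hE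
  have hFc : ∀ c ∈ E, KF c < 1 := fun c hc => (kf_anti hc.1).trans_lt hF
  have hfin : ((fun c : ℝ => KF c ^ 2) '' E).Finite := by
    refine (((Set.finite_Iic K).prod (Set.finite_Iic M)).image
      fun p : ℕ × ℕ => (p.1 : ℝ) / ((p.1 : ℝ) + p.2)).subset ?_
    rintro _ ⟨c, hc, rfl⟩
    obtain ⟨hac, hcb, f, g₁, g₂, E₁, E₂, hne⟩ := id hc
    have h0 : 0 < c := ha.trans_le hac
    have h1 : c < 1 := hcb.trans_lt hb
    have hF1 : KF c < 1 := hFc c hc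
    have hF0 : 0 ≤ KF c := kf_nonneg c
    obtain ⟨p₁, q₁, hq₁, r₁⟩ := rat_all h0 h1 E₁
    obtain ⟨p₂, q₂, hq₂, r₂⟩ := rat_all h0 h1 E₂
    rcases final h0 h1 hF1 E₁ E₂ hq₁ hq₂ r₁ r₂ with ⟨κ, hκ, hκg⟩ | ⟨z₀, k, m, hz₀, hk, hm, hkm,
      hft, hg1, _⟩
    · exfalso
      refine hne ⟨κ.arg, fun z hz => ?_⟩
      rw [hκg z hz]
      congr 1
      have h2 := Complex.norm_mul_exp_arg_mul_I κ
      rw [hκ, Complex.ofReal_one, one_mul] at h2
      exact h2.symm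
    · have hzb : z₀ ∈ ball (0 : ℂ) 1 := by
        rw [mem_ball_zero_iff]
        exact hz₀.trans h1
      obtain ⟨n, w, hw, _, hwa, hwg⟩ := split_zero (S := ball (0 : ℂ) 1) E₁.2.1.1
        E₁.2.1.1.continuousOn (sph_ne E₁.2.1) hzb
      have hord : analyticOrderAt g₁ z₀ = n := by
        rw [((E₁.2.1.1.analyticOnNhd isOpen_ball) z₀ hzb).analyticOrderAt_eq_natCast]
        refine ⟨w, (hw.analyticOnNhd isOpen_ball) z₀ hzb, hwa, ?_⟩
        filter_upwards [isOpen_ball.mem_nhds hzb] with z hz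
        rw [hwg z (Or.inr hz), smul_eq_mul]
      have hmn : m ≤ n := by
        rw [hord] at hg1
        have h2 : (m : ℕ∞) ≤ n := by
          rw [hg1]
          exact le_add_self
        exact_mod_cast h2
      have hord2 := ord_ineq h0 hcb hb E₁ hz₀.le hw (fun z hz => hwg z (Or.inr hz)) hF1.le
      have hδc : δ ≤ 1 - KF c ^ 2 := by
        have h2 := kf_anti hac
        rw [hδ]
        nlinarith
      have hnM : n < M := by
        by_contra hcon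
        push Not at hcon
        have h2 : B ^ n ≤ B ^ M := pow_le_pow_of_le_one hB0 hB1.le hcon
        have h3 : B ^ n * (1 / (1 - ρ ^ 2)) ≤ B ^ M * (1 / (1 - ρ ^ 2)) :=
          mul_le_mul_of_nonneg_right h2 (by positivity)
        linarith
      refine ⟨(k, m), ⟨?_, ?_⟩, ?_⟩
      · show k ≤ K
        have h2 : (k : ℝ) * δ ≤ m := by
          have h3 : (k : ℝ) * (1 - KF c ^ 2) = KF c ^ 2 * m := by linarith
          have h4 : (k : ℝ) * δ ≤ k * (1 - KF c ^ 2) :=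
            mul_le_mul_of_nonneg_left hδc (Nat.cast_nonneg k)
          have h5 : KF c ^ 2 * m ≤ 1 * m :=
            mul_le_mul_of_nonneg_right (by nlinarith) (Nat.cast_nonneg m)
          linarith
        have h3 : (m : ℝ) ≤ M := by exact_mod_cast (hmn.trans hnM.le)
        have h4 : (k : ℝ) ≤ M / δ := by
          rw [le_div_iff₀ hδ0]
          linarith
        exact_mod_cast h4.trans (Nat.le_ceil _)
      · exact hmn.trans hnM.le
      · have hk1 : (1 : ℝ) ≤ k := by exact_mod_cast hk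
        have hpos : (0 : ℝ) < (k : ℝ) + m := by positivity
        show (k : ℝ) / ((k : ℝ) + m) = KF c ^ 2
        rw [div_eq_iff hpos.ne']
        exact hkm.symm
  refine Set.Finite.of_finite_image hfin ?_
  intro c hc c' hc' hcc
  have h0 : 0 < c := ha.trans_le hc.1
  have h0' : 0 < c' := ha.trans_le hc'.1
  have heq : KF c = KF c' := by
    have h2 : KF c ^ 2 = KF c' ^ 2 := hcc
    exact (pow_left_inj₀ (kf_nonneg c) (kf_nonneg c') two_ne_zero).1 h2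
  rcases lt_trichotomy c c' with h | h | h
  · exfalso
    obtain ⟨_, _, f, g₁, g₂, E₁, _, _⟩ := id hc
    exact inj_of_ext h0 h (hc'.2.1.trans_lt hb) (hFc c' hc') heq E₁
  · exact h
  · exfalso
    obtain ⟨_, _, f, g₁, g₂, E₁, _, _⟩ := id hc'
    exact inj_of_ext h0' h (hc.2.1.trans_lt hb) (hFc c hc) heq.symm E₁

end Pool.Agent.Helper23.KU
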